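import Pool.Agent.Helper9.WS.Defs

/-!
Block WS-6c (project WS for MP_1fe969_ag, owner helper9): the coefficient sum is the trace of a product of transfer
matrices.
-/

set_option linter.unusedSectionVars false
set_option linter.unusedVariables false

open MvPolynomial Finset

namespace Pool.Agent.Helper9.WS

section gen

variable {L : Type} [Field L] {n : ℕ}

/-- the linear functional with the values `g` at the monomials -/
private noncomputable def lam_h4 (g : (Fin n →₀ ℕ) → L) : MvPolynomial (Fin n) L →ₗ[L] L :=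
  (basisMonomials (Fin n) L).constr L g

private lemma lam_monomial_h4 (g : (Fin n →₀ ℕ) → L) (N : Fin n →₀ ℕ) (a : L) :
    lam_h4 g (monomial N a) = a * g N := by
  have h1 : lam_h4 g (monomial N 1) = g N := by
    have := (basisMonomials (Fin n) L).constr_basis L g N
    rw [coe_basisMonomials] at this
    exact this
  have h2 : monomial N a = a • monomial N (1 : L) := by
    rw [smul_monomial, smul_eq_mul, mul_one]
  rw [h2, map_smul, h1, smul_eq_mul]

private lemma lam_eq_h4 (g : (Fin n →₀ ℕ) → L) (P : MvPolynomial (Fin n) L) :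
    lam_h4 g P = ∑ N ∈ P.support, P.coeff N * g N := by
  conv_lhs => rw [as_sum P]
  rw [map_sum]
  exact sum_congr rfl fun N _ => lam_monomial_h4 g N _

private lemma mul_expand_h4 (P Q : MvPolynomial (Fin n) L) (m : ℕ) :
    P * expand m Q = ∑ N1 ∈ P.support, ∑ N2 ∈ Q.support, monomial (N1 + m • N2) (P.coeff N1 * Q.coeff N2) := by
  conv_lhs => rw [as_sum P, as_sum Q]
  rw [map_sum, sum_mul_sum]
  refine sum_congr rfl fun N1 _ => sum_congr rfl fun N2 _ => ?_
  rw [expand_monomial, monomial_mul]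

private lemma lam_mul_expand_h4 (g : (Fin n →₀ ℕ) → L) (P Q : MvPolynomial (Fin n) L) (m : ℕ) :
    lam_h4 g (P * expand m Q) =
      ∑ N1 ∈ P.support, ∑ N2 ∈ Q.support, P.coeff N1 * Q.coeff N2 * g (N1 + m • N2) := by
  rw [mul_expand_h4, map_sum]
  refine sum_congr rfl fun N1 _ => ?_
  rw [map_sum]
  exact sum_congr rfl fun N2 _ => lam_monomial_h4 g _ _

private lemma mem_mul_expand_h4 {P Q : MvPolynomial (Fin n) L} {m : ℕ} {N : Fin n →₀ ℕ}
    (h : N ∈ (P * expand m Q).support) : ∃ N1 ∈ P.support, ∃ N2 ∈ Q.support, N = N1 + m • N2 := by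
  classical
  rw [mul_expand_h4, mem_support_iff, coeff_sum] at h
  obtain ⟨N1, h1, h2⟩ := exists_ne_zero_of_sum_ne_zero h
  rw [coeff_sum] at h2
  obtain ⟨N2, h3, h4⟩ := exists_ne_zero_of_sum_ne_zero h2
  rw [coeff_monomial] at h4
  refine ⟨N1, h1, N2, h3, ?_⟩
  by_contra hc
  rw [if_neg (Ne.symm hc)] at h4
  exact h4 rfl

private lemma mem_mul_h4 {S : AddSubmonoid (Fin n →₀ ℕ)} {P Q : MvPolynomial (Fin n) L} (hP : ∀ N ∈ P.support, N ∈ S)
    (hQ : ∀ N ∈ Q.support, N ∈ S) : ∀ N ∈ (P * Q).support, N ∈ S := by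
  classical
  intro N hN
  have := support_mul P Q hN
  rw [Finset.mem_add] at this
  obtain ⟨a, ha, b, hb, rfl⟩ := this
  exact S.add_mem (hP a ha) (hQ b hb)

end gen

section

variable {p : ℕ} [Fact p.Prime] {κ L : Type} [Field κ] [CharP κ p] [Field L] [CharZero L]
  (Φ : Frame p κ L) {n : ℕ} {k : Type} [Field k] [Algebra k κ]

private lemma fac_mem_h4 (M : ℕ) (γ : L) (f : MvPolynomial (Fin n) k) (i : ℕ) :
    ∀ N ∈ (fac Φ M γ f i).support, N ∈ AddSubmonoid.closure (f.support : Set (Fin n →₀ ℕ)) := by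
  classical
  unfold fac
  refine Finset.prod_induction _ (fun P : MvPolynomial (Fin n) L => ∀ N ∈ P.support,
    N ∈ AddSubmonoid.closure (f.support : Set (Fin n →₀ ℕ))) (fun P Q => mem_mul_h4) ?_ ?_
  · intro N hN
    have : N = 0 := by
      rw [mem_support_iff, coeff_one] at hN
      by_contra hc
      rw [if_neg (Ne.symm hc)] at hN
      exact hN rfl
    rw [this]
    exact AddSubmonoid.zero_mem _
  · intro e he N hN
    rw [mem_support_iff, coeff_sum] at hN
    obtain ⟨j, _, h2⟩ := exists_ne_zero_of_sum_ne_zero hN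
    rw [coeff_monomial] at h2
    have h3 : j • e = N := by
      by_contra hc
      rw [if_neg hc] at h2
      exact h2 rfl
    rw [← h3]
    exact AddSubmonoid.nsmul_mem _ (AddSubmonoid.subset_closure he) j

private lemma prd_succ_h4 (M : ℕ) (γ : L) (f : MvPolynomial (Fin n) k) (r : ℕ) :
    prd Φ M γ f (r + 1) = prd Φ M γ f r * expand (p ^ r) (fac Φ M γ f r) := by
  unfold prd
  rw [prod_range_succ]

private lemma prd_mem_h4 (M : ℕ) (γ : L) (f : MvPolynomial (Fin n) k) (r : ℕ) :
    ∀ N ∈ (prd Φ M γ f r).support, N ∈ AddSubmonoid.closure (f.support : Set (Fin n →₀ ℕ)) := by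
  classical
  induction r with
  | zero =>
    intro N hN
    have : N = 0 := by
      unfold prd at hN
      rw [range_zero, prod_empty, mem_support_iff, coeff_one] at hN
      by_contra hc
      rw [if_neg (Ne.symm hc)] at hN
      exact hN rfl
    rw [this]
    exact AddSubmonoid.zero_mem _
  | succ r ih =>
    intro N hN
    rw [prd_succ_h4] at hN
    obtain ⟨N1, h1, N2, h2, rfl⟩ := mem_mul_expand_h4 hN
    exact AddSubmonoid.add_mem _ (ih N1 h1) (AddSubmonoid.nsmul_mem _ (fac_mem_h4 Φ M γ f r N2 h2) _)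

private lemma prd_bound_h4 (M : ℕ) (γ : L) (f : MvPolynomial (Fin n) k) (B : ℕ)
    (hB : ∀ i, ∀ N ∈ (fac Φ M γ f i).support, ∀ j, N j ≤ B) (r : ℕ) :
    ∀ N ∈ (prd Φ M γ f r).support, ∀ j, (p - 1) * N j + B ≤ p ^ r * B := by
  classical
  induction r with
  | zero =>
    intro N hN j
    have : N = 0 := by
      unfold prd at hN
      rw [range_zero, prod_empty, mem_support_iff, coeff_one] at hN
      by_contra hc
      rw [if_neg (Ne.symm hc)] at hN
      exact hN rfl
    rw [this]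
    simp
  | succ r ih =>
    intro N hN j
    rw [prd_succ_h4] at hN
    obtain ⟨N1, h1, N2, h2, rfl⟩ := mem_mul_expand_h4 hN
    have e1 := ih N1 h1 j
    have e2 := hB r N2 h2 j
    have hp : 1 ≤ p := (Fact.out : p.Prime).one_lt.le
    obtain ⟨t, rfl⟩ : ∃ t, p = t + 1 := ⟨p - 1, by omega⟩
    rw [Finsupp.add_apply, Finsupp.smul_apply, smul_eq_mul, pow_succ]
    simp only [Nat.add_sub_cancel] at e1 ⊢
    have e3 : t * ((t + 1) ^ r * N2 j) ≤ t * ((t + 1) ^ r * B) :=
      Nat.mul_le_mul_left _ (Nat.mul_le_mul_left _ e2)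
    nlinarith

private lemma C_closure_h4 {f : MvPolynomial (Fin n) k} {C : (Fin n →₀ ℕ) → Prop}
    (hCe : ∀ e ∈ f.support, ∀ U, C U → C (U + e)) {N : Fin n →₀ ℕ}
    (hN : N ∈ AddSubmonoid.closure (f.support : Set (Fin n →₀ ℕ))) : ∀ U, C U → C (U + N) := by
  induction hN using AddSubmonoid.closure_induction with
  | mem e he => exact hCe e he
  | zero =>
    intro U hU
    rwa [add_zero]
  | add a b _ _ ha hb =>
    intro U hU
    rw [← add_assoc]
    exact hb _ (ha U hU)

private lemma vec_apply_h4 {c : Fin n → ℕ} {C : (Fin n →₀ ℕ) → Prop} {B : ℕ} {Z : Finset (Fin n)} (U : Idx p c C B Z)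
    (j : Fin n) : U.vec j = (U.1 j : ℕ) := rfl

private lemma vec_inj_h4 {c : Fin n → ℕ} {C : (Fin n →₀ ℕ) → Prop} {B : ℕ} {Z : Finset (Fin n)} {U V : Idx p c C B Z}
    (h : U.vec = V.vec) : U = V := by
  apply Subtype.ext
  funext j
  apply Fin.ext
  exact DFunLike.congr_fun h j

/-- an index from a vector -/
private lemma exists_idx_h4 {c : Fin n → ℕ} {C : (Fin n →₀ ℕ) → Prop} {B : ℕ} {Z : Finset (Fin n)} {W : Fin n →₀ ℕ}
    (h1 : ∀ j, W j ≤ B) (h2 : ∀ j, (j ∈ Z ↔ W j = 0) ∧ (p - 1) ∣ W j + c j) (h3 : C W) :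
    ∃ U : Idx p c C B Z, U.vec = W := by
  refine ⟨⟨fun j => ⟨W j, Nat.lt_succ_of_le (h1 j)⟩, fun j => h2 j, ?_⟩, ?_⟩
  · have : (Finsupp.equivFunOnFinite.symm fun j => ((⟨W j, Nat.lt_succ_of_le (h1 j)⟩ : Fin (B + 1)) : ℕ)) = W := by
      ext j
      rfl
    rw [this]
    exact h3
  · ext j
    rfl

/-- the step -/
private lemma step_h4 (M : ℕ) (γ : L) (f : MvPolynomial (Fin n) k) (c : Fin n → ℕ)
    (C : (Fin n →₀ ℕ) → Prop) (hCe : ∀ e ∈ f.support, ∀ U, C U → C (U + e))
    (hCm : ∀ m U, 0 < m → C (m • U) → C U) (B : ℕ)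
    (hB : ∀ i, ∀ N ∈ (fac Φ M γ f i).support, ∀ j, N j ≤ B) (Z : Finset (Fin n)) (r : ℕ)
    (U V : Idx p c C B Z) {N1 N2 : Fin n →₀ ℕ} (hN1 : N1 ∈ (prd Φ M γ f r).support)
    (h : (p - 1) • (N1 + p ^ r • N2) + V.vec = p ^ (r + 1) • U.vec) :
    ∃ W : Idx p c C B Z, (p - 1) • N2 + W.vec = p • U.vec ∧ (p - 1) • N1 + V.vec = p ^ r • W.vec := by
  have hp2 : 2 ≤ p := (Fact.out : p.Prime).two_le
  have hpr : 0 < p ^ r := pow_pos (by omega) r
  have hj : ∀ j, (p - 1) * N1 j + (p - 1) * (p ^ r * N2 j) + V.vec j = p ^ r * (p * U.vec j) := by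
    intro j
    have := DFunLike.congr_fun h j
    simp only [Finsupp.add_apply, Finsupp.smul_apply, smul_eq_mul, pow_succ] at this
    rw [mul_add] at this
    rw [this]
    ring
  have hle : ∀ j, (p - 1) * N2 j ≤ p * U.vec j := by
    intro j
    have h1 : p ^ r * ((p - 1) * N2 j) ≤ p ^ r * (p * U.vec j) := by
      have := hj j
      have e : (p - 1) * (p ^ r * N2 j) = p ^ r * ((p - 1) * N2 j) := by ring
      omega
    exact Nat.le_of_mul_le_mul_left h1 hpr
  let W : Fin n →₀ ℕ := Finsupp.equivFunOnFinite.symm fun j => p * U.vec j - (p - 1) * N2 j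
  have hW : ∀ j, (p - 1) * N2 j + W j = p * U.vec j := by
    intro j
    have h1 : W j = p * U.vec j - (p - 1) * N2 j := rfl
    have := hle j
    omega
  have hWr : ∀ j, (p - 1) * N1 j + V.vec j = p ^ r * W j := by
    intro j
    have h1 := hj j
    rw [← hW j] at h1
    have e : (p - 1) * (p ^ r * N2 j) = p ^ r * ((p - 1) * N2 j) := by ring
    rw [mul_add, e] at h1
    omega
  have hVZ : ∀ j, j ∈ Z ↔ V.vec j = 0 := fun j => (V.2.1 j).1
  have hUZ : ∀ j, j ∈ Z ↔ U.vec j = 0 := fun j => (U.2.1 j).1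
  have hUd : ∀ j, (p - 1) ∣ U.vec j + c j := fun j => (U.2.1 j).2
  have hVB : ∀ j, V.vec j ≤ B := fun j => Nat.le_of_lt_succ (V.1 j).2
  have hex : ∃ X : Idx p c C B Z, X.vec = W := by
    refine exists_idx_h4 ?_ ?_ ?_
    · intro j
      have h1 := prd_bound_h4 Φ M γ f B hB r N1 hN1 j
      have h2 : p ^ r * W j ≤ p ^ r * B := by
        have := hWr j
        have := hVB j
        omega
      exact Nat.le_of_mul_le_mul_left h2 hpr
    · intro j
      refine ⟨⟨fun hj' => ?_, fun hj' => ?_⟩, ?_⟩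
      · have h1 := hW j
        rw [(hUZ j).1 hj', mul_zero] at h1
        omega
      · have h1 := hWr j
        rw [hj', mul_zero] at h1
        rw [hVZ]
        omega
      · have h1 := hW j
        have h2 : (p - 1) * N2 j + (W j + c j) = (p - 1) * U.vec j + (U.vec j + c j) := by
          have h3 : p * U.vec j = (p - 1) * U.vec j + U.vec j := by
            obtain ⟨t, rfl⟩ : ∃ t, p = t + 1 := ⟨p - 1, by omega⟩
            rw [Nat.add_sub_cancel]
            ring
          omega
        have h3 : (p - 1) ∣ (p - 1) * N2 j + (W j + c j) := by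
          rw [h2]
          exact dvd_add (dvd_mul_right _ _) (hUd j)
        exact (Nat.dvd_add_right (dvd_mul_right _ _)).1 h3
    · refine hCm (p ^ r) W hpr ?_
      have h1 : p ^ r • W = V.vec + (p - 1) • N1 := by
        ext j
        have := hWr j
        simp only [Finsupp.add_apply, Finsupp.smul_apply, smul_eq_mul]
        omega
      rw [h1]
      exact C_closure_h4 hCe (AddSubmonoid.nsmul_mem _ (prd_mem_h4 Φ M γ f r N1 hN1) _) _ V.2.2
  obtain ⟨X, hX⟩ := hex
  refine ⟨X, ?_, ?_⟩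
  · ext j
    rw [hX]
    exact hW j
  · ext j
    rw [hX]
    exact hWr j

private lemma mprod_h4 (M : ℕ) (γ : L) (f : MvPolynomial (Fin n) k) (c : Fin n → ℕ)
    (C : (Fin n →₀ ℕ) → Prop) (hCe : ∀ e ∈ f.support, ∀ U, C U → C (U + e))
    (hCm : ∀ m U, 0 < m → C (m • U) → C U) (B : ℕ)
    (hB : ∀ i, ∀ N ∈ (fac Φ M γ f i).support, ∀ j, N j ≤ B) (Z : Finset (Fin n)) (r : ℕ) :
    ∀ U V : Idx p c C B Z, mprod (fun i => trans p c C B Z (fac Φ M γ f i)) r U V =
      ∑ N ∈ (prd Φ M γ f r).support, (prd Φ M γ f r).coeff N *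
        if (p - 1) • N + V.vec = p ^ r • U.vec then 1 else 0 := by
  classical
  induction r with
  | zero =>
    intro U V
    have h1 : prd Φ M γ f 0 = 1 := by
      unfold prd
      rw [range_zero, prod_empty]
    rw [h1, ← lam_eq_h4]
    have h2 : (1 : MvPolynomial (Fin n) L) = monomial 0 1 := rfl
    rw [h2, lam_monomial_h4, one_mul]
    show (1 : Matrix _ _ L) U V = _
    rw [smul_zero, zero_add, pow_zero, one_smul, Matrix.one_apply]
    by_cases h : U = V
    · rw [if_pos h, if_pos (by rw [h])]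
    · rw [if_neg h, if_neg (fun h' => h (vec_inj_h4 h'.symm))]
  | succ r ih =>
    intro U V
    rw [← lam_eq_h4, prd_succ_h4, lam_mul_expand_h4]
    show (trans p c C B Z (fac Φ M γ f r) * mprod (fun i => trans p c C B Z (fac Φ M γ f i)) r) U V = _
    rw [Matrix.mul_apply]
    have h1 : ∀ W : Idx p c C B Z, trans p c C B Z (fac Φ M γ f r) U W *
        mprod (fun i => trans p c C B Z (fac Φ M γ f i)) r W V =
        ∑ N1 ∈ (prd Φ M γ f r).support, ∑ N2 ∈ (fac Φ M γ f r).support,
          (prd Φ M γ f r).coeff N1 * (fac Φ M γ f r).coeff N2 *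
            ((if (p - 1) • N2 + W.vec = p • U.vec then 1 else 0) *
              (if (p - 1) • N1 + V.vec = p ^ r • W.vec then 1 else 0)) := by
      intro W
      rw [ih, mul_comm, sum_mul]
      refine sum_congr rfl fun N1 _ => ?_
      unfold trans
      rw [mul_sum]
      refine sum_congr rfl fun N2 _ => ?_
      by_cases e1 : (p - 1) • N2 + W.vec = p • U.vec
      · rw [if_pos e1, if_pos e1]
        ring
      · rw [if_neg e1, if_neg e1]
        ring
    rw [sum_congr rfl fun W _ => h1 W, sum_comm]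
    refine sum_congr rfl fun N1 hN1 => ?_
    rw [sum_comm]
    refine sum_congr rfl fun N2 _ => ?_
    rw [← mul_sum]
    congr 1
    by_cases e1 : (p - 1) • (N1 + p ^ r • N2) + V.vec = p ^ (r + 1) • U.vec
    · rw [if_pos e1]
      obtain ⟨W, hW1, hW2⟩ := step_h4 Φ M γ f c C hCe hCm B hB Z r U V hN1 e1
      rw [sum_eq_single W]
      · rw [if_pos hW1, if_pos hW2, one_mul]
      · intro X _ hX
        rw [if_neg, zero_mul]
        intro hX1
        apply hX
        apply vec_inj_h4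
        exact add_left_cancel (hX1.trans hW1.symm)
      · intro h
        exact absurd (mem_univ W) h
    · rw [if_neg e1]
      refine sum_eq_zero fun W _ => ?_
      by_cases e2 : (p - 1) • N2 + W.vec = p • U.vec
      · by_cases e3 : (p - 1) • N1 + V.vec = p ^ r • W.vec
        · exfalso
          apply e1
          calc (p - 1) • (N1 + p ^ r • N2) + V.vec = p ^ r • ((p - 1) • N2) + ((p - 1) • N1 + V.vec) := by
                rw [smul_add, smul_comm (p - 1) (p ^ r)]
                abel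
            _ = p ^ r • ((p - 1) • N2 + W.vec) := by rw [e3, smul_add]
            _ = p ^ (r + 1) • U.vec := by rw [e2, smul_smul, pow_succ]
        · rw [if_neg e3, mul_zero]
      · rw [if_neg e2, zero_mul]

theorem coeff_prd (M : ℕ) (γ : L) (f : MvPolynomial (Fin n) k) (c : Fin n → ℕ)
    (C : (Fin n →₀ ℕ) → Prop) (hC0 : C 0) (hCe : ∀ e ∈ f.support, ∀ U, C U → C (U + e))
    (hCm : ∀ m U, 0 < m → C (m • U) → C U) (B : ℕ)
    (hB : ∀ i, ∀ N ∈ (fac Φ M γ f i).support, ∀ j, N j ≤ B) (Z : Finset (Fin n)) (r : ℕ) :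
    ∑ U : Idx p c C B Z, (prd Φ M γ f r).coeff (((p ^ r - 1) / (p - 1)) • U.vec) =
      (mprod (fun i => trans p c C B Z (fac Φ M γ f i)) r).trace := by
  classical
  rw [Matrix.trace]
  refine sum_congr rfl fun U _ => ?_
  rw [Matrix.diag_apply, mprod_h4 Φ M γ f c C hCe hCm B hB Z r U U]
  have hp2 : 2 ≤ p := (Fact.out : p.Prime).two_le
  have hdvd : (p - 1) ∣ p ^ r - 1 := by
    simpa using Nat.sub_dvd_pow_sub_pow p 1 r
  have hpr : 1 ≤ p ^ r := Nat.one_le_pow _ _ (by omega)
  have hiff : ∀ N : Fin n →₀ ℕ, (p - 1) • N + U.vec = p ^ r • U.vec ↔ N = ((p ^ r - 1) / (p - 1)) • U.vec := by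
    intro N
    have key : ∀ j, (p - 1) * (((p ^ r - 1) / (p - 1)) * U.vec j) + U.vec j = p ^ r * U.vec j := by
      intro j
      rw [← mul_assoc, Nat.mul_div_cancel' hdvd]
      obtain ⟨t, ht⟩ : ∃ t, p ^ r = t + 1 := ⟨p ^ r - 1, by omega⟩
      rw [ht, Nat.add_sub_cancel]
      ring
    constructor
    · intro h
      ext j
      have h1 := DFunLike.congr_fun h j
      simp only [Finsupp.add_apply, Finsupp.smul_apply, smul_eq_mul] at h1 ⊢
      have h2 := key j
      have h3 : (p - 1) * N j = (p - 1) * (((p ^ r - 1) / (p - 1)) * U.vec j) := by omega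
      exact Nat.eq_of_mul_eq_mul_left (by omega) h3
    · rintro rfl
      ext j
      exact key j
  rw [sum_congr rfl fun N _ => by rw [if_congr (hiff N) rfl rfl]]
  simp only [mul_ite, mul_one, mul_zero]
  rw [sum_ite_eq' (prd Φ M γ f r).support]
  by_cases h : ((p ^ r - 1) / (p - 1)) • U.vec ∈ (prd Φ M γ f r).support
  · rw [if_pos h]
  · rw [if_neg h]
    exact notMem_support_iff.1 h

end

end Pool.Agent.Helper9.WS
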