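import Mathlib

/-!
Block WS-25, part B (project WS for MP_1fe969_ag, owner helper9): a binary cubic form without zeros over a finite
field with `3 ∣ q - 1` is a sum of two cubes `α x³ + γ y³` after a linear change of variables (the zeros of the Hessian
are rational).
-/

namespace Pool.Agent.Helper4.WS

/-- elements with `x ^ q = x` lie in `k` -/
private lemma mem_range_h4 {k K : Type} [Field k] [Fintype k] [Field K] [Algebra k K] {x : K}
    (hx : x ^ Fintype.card k = x) : ∃ a : k, algebraMap k K a = x := by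
  classical
  by_contra hc
  push Not at hc
  have hq : 1 < Fintype.card k := Fintype.one_lt_card
  set P : Polynomial K := Polynomial.X ^ Fintype.card k - Polynomial.X with hPdef
  have hP : P ≠ 0 := FiniteField.X_pow_card_sub_X_ne_zero K hq
  have hsub : insert x (Finset.univ.image (algebraMap k K)) ⊆ P.roots.toFinset := by
    intro y hy
    rw [Multiset.mem_toFinset, Polynomial.mem_roots hP, Polynomial.IsRoot, hPdef, Polynomial.eval_sub,
      Polynomial.eval_pow, Polynomial.eval_X, sub_eq_zero]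
    rcases Finset.mem_insert.1 hy with rfl | hy
    · exact hx
    · obtain ⟨a, -, rfl⟩ := Finset.mem_image.1 hy
      rw [← map_pow, FiniteField.pow_card]
  have h1 := Finset.card_le_card hsub
  rw [Finset.card_insert_of_notMem (by
    intro h
    obtain ⟨a, -, ha⟩ := Finset.mem_image.1 h
    exact hc a ha), Finset.card_image_of_injective _ (algebraMap k K).injective, Finset.card_univ] at h1
  have h2 : P.roots.toFinset.card ≤ P.natDegree := (Multiset.toFinset_card_le _).trans (Polynomial.card_roots' P)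
  have h3 : P.natDegree = Fintype.card k := FiniteField.X_pow_card_sub_X_natDegree_eq K hq
  omega

/-- the discriminant of a cubic polynomial without roots over a finite field is a square -/
private lemma disc_sq_h4 {k : Type} [Field k] [Fintype k] {a b c d : k} (ha : a ≠ 0)
    (hroot : ∀ x : k, a * x ^ 3 + b * x ^ 2 + c * x + d ≠ 0)
    (hd : (Cubic.mk a b c d).discr ≠ 0) : ∃ e : k, (Cubic.mk a b c d).discr = e ^ 2 := by
  set P : Cubic k := ⟨a, b, c, d⟩ with hP
  set φ := algebraMap k (AlgebraicClosure k) with hφ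
  have haP : P.a ≠ 0 := ha
  obtain ⟨x, y, z, h3⟩ := (Cubic.splits_iff_roots_eq_three (φ := φ) haP).1 (IsAlgClosed.splits _)
  have hdis := Cubic.discr_eq_prod_three_roots haP h3
  have hφd : φ P.discr ≠ 0 := (map_ne_zero φ).2 hd
  have hxy : x ≠ y := by
    rintro rfl
    rw [hdis] at hφd
    exact hφd (by ring)
  have hxz : x ≠ z := by
    rintro rfl
    rw [hdis] at hφd
    exact hφd (by ring)
  have hyz : y ≠ z := by
    rintro rfl
    rw [hdis] at hφd
    exact hφd (by ring)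
  have hmem : ∀ r : AlgebraicClosure k, φ a * r ^ 3 + φ b * r ^ 2 + φ c * r + φ d = 0 ↔ r = x ∨ r = y ∨ r = z := by
    intro r
    have h0 : (Cubic.map φ P).toPoly ≠ 0 := by
      rw [Cubic.map_toPoly]
      exact (Polynomial.map_ne_zero_iff φ.injective).2 (Cubic.ne_zero_of_a_ne_zero haP)
    have h1 := Cubic.mem_roots_iff h0 r
    rw [h3] at h1
    simp only [Multiset.insert_eq_cons, Multiset.mem_cons, Multiset.mem_singleton] at h1
    exact h1.symm
  let F := FiniteField.frobeniusAlgHom k (AlgebraicClosure k)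
  have hF : ∀ r, F r = r ^ Fintype.card k := fun r => rfl
  have hFinj : Function.Injective F := F.toRingHom.injective
  have hFφ : ∀ t : k, F (φ t) = φ t := fun t => F.commutes t
  have hFroot : ∀ r : AlgebraicClosure k, (r = x ∨ r = y ∨ r = z) → (F r = x ∨ F r = y ∨ F r = z) := by
    intro r hr
    rw [← hmem] at hr ⊢
    have := congrArg F hr
    simpa only [map_add, map_mul, map_pow, hFφ, map_zero] using this
  have hfix : ∀ r : AlgebraicClosure k, (r = x ∨ r = y ∨ r = z) → F r ≠ r := by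
    intro r hr hc
    obtain ⟨t, ht⟩ := mem_range_h4 (k := k) (x := r) (by rw [← hF]; exact hc)
    rw [← hmem, ← ht] at hr
    apply hroot t
    apply φ.injective
    rw [map_zero]
    simpa only [map_add, map_mul, map_pow] using hr
  have hδ : F ((x - y) * (x - z) * (y - z)) = (x - y) * (x - z) * (y - z) := by
    rw [map_mul, map_mul, map_sub, map_sub, map_sub]
    have fx := hFroot x (Or.inl rfl)
    have fy := hFroot y (Or.inr (Or.inl rfl))
    have fz := hFroot z (Or.inr (Or.inr rfl))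
    have nx := hfix x (Or.inl rfl)
    have ny := hfix y (Or.inr (Or.inl rfl))
    have nz := hfix z (Or.inr (Or.inr rfl))
    have ixy : F x ≠ F y := fun h => hxy (hFinj h)
    have ixz : F x ≠ F z := fun h => hxz (hFinj h)
    have iyz : F y ≠ F z := fun h => hyz (hFinj h)
    rcases fx with h | h | h
    · exact absurd h nx
    · rcases fy with h' | h' | h'
      · rcases fz with h'' | h'' | h''
        · exact absurd (h'.trans h''.symm) iyz
        · exact absurd (h.trans h''.symm) ixz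
        · exact absurd h'' nz
      · exact absurd h' ny
      · rcases fz with h'' | h'' | h''
        · rw [h, h', h'']
          ring
        · exact absurd (h.trans h''.symm) ixz
        · exact absurd h'' nz
    · rcases fy with h' | h' | h'
      · rcases fz with h'' | h'' | h''
        · exact absurd (h'.trans h''.symm) iyz
        · rw [h, h', h'']
          ring
        · exact absurd h'' nz
      · exact absurd h' ny
      · exact absurd (h.trans h'.symm) ixy
  rw [hF] at hδ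
  obtain ⟨t, ht⟩ := mem_range_h4 (k := k) hδ
  refine ⟨a * a * t, φ.injective ?_⟩
  have ht' : φ t = (x - y) * (x - z) * (y - z) := ht
  rw [hdis, map_pow, map_mul, map_mul, ht']
  ring

/-- `-3` is a square -/
private lemma neg_three_h4 {k : Type} [Field k] [Fintype k] (h : 3 ∣ Fintype.card k - 1) : ∃ w : k, w ^ 2 = -3 := by
  classical
  have : Fact (Nat.Prime 3) := ⟨Nat.prime_three⟩
  rw [← Fintype.card_units] at h
  obtain ⟨u, hu⟩ := exists_prime_orderOf_dvd_card 3 h
  have h3 : (u : k) ^ 3 = 1 := by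
    have := pow_orderOf_eq_one u
    rw [hu] at this
    have h4 := congrArg Units.val this
    simpa using h4
  have h1 : (u : k) ≠ 1 := by
    intro hc
    have : u = 1 := Units.ext hc
    rw [this, orderOf_one] at hu
    omega
  have h4 : (u : k) ^ 2 + u + 1 = 0 := by
    have h5 : ((u : k) - 1) * ((u : k) ^ 2 + u + 1) = 0 := by linear_combination h3
    rcases mul_eq_zero.1 h5 with h6 | h6
    · exact absurd (sub_eq_zero.1 h6) h1
    · exact h6
  exact ⟨2 * u + 1, by linear_combination 4 * h4⟩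

/-- the polynomial identities: the Hessian is a covariant -/
private lemma hess1_h4 {k : Type} [Field k] (c0 c1 c2 c3 a b c d : k) :
    (3 * c3 * a ^ 2 * b + c2 * (a ^ 2 * d + 2 * a * b * c) + c1 * (2 * a * c * d + b * c ^ 2) + 3 * c0 * c ^ 2 * d) ^ 2 -
      3 * (c3 * a ^ 3 + c2 * a ^ 2 * c + c1 * a * c ^ 2 + c0 * c ^ 3) *
        (3 * c3 * a * b ^ 2 + c2 * (b ^ 2 * c + 2 * a * b * d) + c1 * (a * d ^ 2 + 2 * b * c * d) + 3 * c0 * c * d ^ 2) =
      (a * d - b * c) ^ 2 * ((c2 ^ 2 - 3 * c3 * c1) * a ^ 2 + (c2 * c1 - 9 * c3 * c0) * a * c +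
        (c1 ^ 2 - 3 * c2 * c0) * c ^ 2) := by
  ring

private lemma hess2_h4 {k : Type} [Field k] (c0 c1 c2 c3 a b c d : k) :
    (3 * c3 * a * b ^ 2 + c2 * (b ^ 2 * c + 2 * a * b * d) + c1 * (a * d ^ 2 + 2 * b * c * d) + 3 * c0 * c * d ^ 2) ^ 2 -
      3 * (3 * c3 * a ^ 2 * b + c2 * (a ^ 2 * d + 2 * a * b * c) + c1 * (2 * a * c * d + b * c ^ 2) +
        3 * c0 * c ^ 2 * d) * (c3 * b ^ 3 + c2 * b ^ 2 * d + c1 * b * d ^ 2 + c0 * d ^ 3) =
      (a * d - b * c) ^ 2 * ((c2 ^ 2 - 3 * c3 * c1) * b ^ 2 + (c2 * c1 - 9 * c3 * c0) * b * d +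
        (c1 ^ 2 - 3 * c2 * c0) * d ^ 2) := by
  ring

/-- the middle coefficient of the Hessian -/
private lemma hess3_h4 {k : Type} [Field k] (c0 c1 c2 c3 a b c d : k) :
    (3 * c3 * a ^ 2 * b + c2 * (a ^ 2 * d + 2 * a * b * c) + c1 * (2 * a * c * d + b * c ^ 2) + 3 * c0 * c ^ 2 * d) *
      (3 * c3 * a * b ^ 2 + c2 * (b ^ 2 * c + 2 * a * b * d) + c1 * (a * d ^ 2 + 2 * b * c * d) + 3 * c0 * c * d ^ 2) -
      9 * (c3 * a ^ 3 + c2 * a ^ 2 * c + c1 * a * c ^ 2 + c0 * c ^ 3) *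
        (c3 * b ^ 3 + c2 * b ^ 2 * d + c1 * b * d ^ 2 + c0 * d ^ 3) =
      (a * d - b * c) ^ 2 * (2 * (c2 ^ 2 - 3 * c3 * c1) * a * b + (c2 * c1 - 9 * c3 * c0) * (a * d + b * c) +
        2 * (c1 ^ 2 - 3 * c2 * c0) * c * d) := by
  ring

/-- two zeros of the Hessian -/
private lemma zeros_h4 {k : Type} [Field k] (h2 : (2 : k) ≠ 0) {A B C e : k} (he : e ≠ 0)
    (h : B ^ 2 - 4 * A * C = e ^ 2) : ∃ a b c d : k, a * d - b * c ≠ 0 ∧ A * a ^ 2 + B * a * c + C * c ^ 2 = 0 ∧
      A * b ^ 2 + B * b * d + C * d ^ 2 = 0 ∧ 2 * A * a * b + B * (a * d + b * c) + 2 * C * c * d ≠ 0 := by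
  by_cases hA : A = 0
  · subst hA
    have hB : B ≠ 0 := by
      rintro rfl
      apply he
      have h3 : e ^ 2 = 0 := by rw [← h]; ring
      exact pow_eq_zero_iff (two_ne_zero) |>.1 h3
    refine ⟨1, -C, 0, B, by simpa using hB, by ring, by ring, ?_⟩
    have : 2 * 0 * 1 * -C + B * (1 * B + -C * 0) + 2 * C * 0 * B = B ^ 2 := by ring
    rw [this]
    exact pow_ne_zero 2 hB
  · refine ⟨-B + e, -B - e, 2 * A, 2 * A, ?_, ?_, ?_, ?_⟩
    · have : (-B + e) * (2 * A) - (-B - e) * (2 * A) = 2 * 2 * A * e := by ring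
      rw [this]
      exact mul_ne_zero (mul_ne_zero (mul_ne_zero h2 h2) hA) he
    · linear_combination (-A) * h
    · linear_combination (-A) * h
    · have : 2 * A * (-B + e) * (-B - e) + B * ((-B + e) * (2 * A) + (-B - e) * (2 * A)) +
          2 * C * (2 * A) * (2 * A) = -(2 * 2 * A * e ^ 2) := by linear_combination (-2 * A) * h
      rw [this, neg_ne_zero]
      exact mul_ne_zero (mul_ne_zero (mul_ne_zero h2 h2) hA) (pow_ne_zero 2 he)

/-- A binary cubic form without zeros over a finite field with `3 ∣ q - 1` is `α x³ + γ y³` in suitable coordinates,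
`α / γ` not a cube. The form is `c3 x³ + c2 x² y + c1 x y² + c0 y³`; the four equations give the coefficients after
`x → a x + b y`, `y → c x + d y`. -/
theorem cubic_diag {k : Type} [Field k] [Fintype k] (h2 : (2 : k) ≠ 0) (h3 : (3 : k) ≠ 0)
    (hq : 3 ∣ Fintype.card k - 1) {c0 c1 c2 c3 : k}
    (hz : ∀ x y : k, c3 * x ^ 3 + c2 * x ^ 2 * y + c1 * x * y ^ 2 + c0 * y ^ 3 = 0 → x = 0 ∧ y = 0)
    (hd : c1 ^ 2 * c2 ^ 2 - 4 * c0 * c2 ^ 3 - 4 * c1 ^ 3 * c3 + 18 * c0 * c1 * c2 * c3 -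
      27 * c0 ^ 2 * c3 ^ 2 ≠ 0) :
    ∃ a b c d α γ : k, a * d - b * c ≠ 0 ∧ α ≠ 0 ∧ γ ≠ 0 ∧ (∀ t : k, α ≠ γ * t ^ 3) ∧
      c3 * a ^ 3 + c2 * a ^ 2 * c + c1 * a * c ^ 2 + c0 * c ^ 3 = α ∧
      3 * c3 * a ^ 2 * b + c2 * (a ^ 2 * d + 2 * a * b * c) + c1 * (2 * a * c * d + b * c ^ 2) +
        3 * c0 * c ^ 2 * d = 0 ∧
      3 * c3 * a * b ^ 2 + c2 * (b ^ 2 * c + 2 * a * b * d) + c1 * (a * d ^ 2 + 2 * b * c * d) +
        3 * c0 * c * d ^ 2 = 0 ∧
      c3 * b ^ 3 + c2 * b ^ 2 * d + c1 * b * d ^ 2 + c0 * d ^ 3 = γ := by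
  have hc3 : c3 ≠ 0 := by
    rintro rfl
    exact one_ne_zero (hz 1 0 (by ring)).1
  have hroot : ∀ x : k, c3 * x ^ 3 + c2 * x ^ 2 + c1 * x + c0 ≠ 0 := by
    intro x hx
    exact one_ne_zero (hz x 1 (by linear_combination hx)).2
  have hdis : (Cubic.mk c3 c2 c1 c0).discr = c1 ^ 2 * c2 ^ 2 - 4 * c0 * c2 ^ 3 - 4 * c1 ^ 3 * c3 +
      18 * c0 * c1 * c2 * c3 - 27 * c0 ^ 2 * c3 ^ 2 := by
    unfold Cubic.discr
    ring
  obtain ⟨e, he⟩ := disc_sq_h4 hc3 hroot (by rw [hdis]; exact hd)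
  rw [hdis] at he
  obtain ⟨w, hw⟩ := neg_three_h4 hq
  have he0 : e ≠ 0 := by
    rintro rfl
    exact hd (by rw [he]; ring)
  have hw0 : w ≠ 0 := by
    rintro rfl
    apply h3
    linear_combination hw
  obtain ⟨a, b, c, d, hdet, z1, z2, hmid⟩ := zeros_h4 h2 (A := c2 ^ 2 - 3 * c3 * c1) (B := c2 * c1 - 9 * c3 * c0)
    (C := c1 ^ 2 - 3 * c2 * c0) (e := w * e) (mul_ne_zero hw0 he0) (by
      rw [mul_pow, hw, ← he]
      ring)
  have i1 := hess1_h4 c0 c1 c2 c3 a b c d
  have i2 := hess2_h4 c0 c1 c2 c3 a b c d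
  have i3 := hess3_h4 c0 c1 c2 c3 a b c d
  rw [z1, mul_zero] at i1
  rw [z2, mul_zero] at i2
  set α := c3 * a ^ 3 + c2 * a ^ 2 * c + c1 * a * c ^ 2 + c0 * c ^ 3 with hα
  set p := 3 * c3 * a ^ 2 * b + c2 * (a ^ 2 * d + 2 * a * b * c) + c1 * (2 * a * c * d + b * c ^ 2) +
        3 * c0 * c ^ 2 * d with hp
  set q := 3 * c3 * a * b ^ 2 + c2 * (b ^ 2 * c + 2 * a * b * d) + c1 * (a * d ^ 2 + 2 * b * c * d) +
        3 * c0 * c * d ^ 2 with hq'
  set γ := c3 * b ^ 3 + c2 * b ^ 2 * d + c1 * b * d ^ 2 + c0 * d ^ 3 with hγ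
  have hm : p * q - 9 * α * γ ≠ 0 := by
    rw [i3]
    refine mul_ne_zero (pow_ne_zero 2 hdet) ?_
    intro h
    apply hmid
    rw [← h]
  have hp0 : p = 0 := by
    by_contra hpn
    have hqn : q ≠ 0 := by
      intro h
      rw [h, mul_zero, sub_zero] at i1
      exact hpn (pow_eq_zero_iff two_ne_zero |>.1 i1)
    apply hm
    -- `p² = 3 α q`, `q² = 3 p γ`, so `p² q² = 9 α γ p q`
    have h1 : p * q * (p * q - 9 * α * γ) = 0 := by
      linear_combination (q ^ 2) * i1 + (3 * α * q) * i2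
    rcases mul_eq_zero.1 h1 with h | h
    · rcases mul_eq_zero.1 h with h | h
      · exact absurd h hpn
      · exact absurd h hqn
    · exact h
  have hq0 : q = 0 := by
    rw [hp0, mul_zero, zero_mul, sub_zero] at i2
    exact pow_eq_zero_iff two_ne_zero |>.1 i2
  have hαγ : α ≠ 0 ∧ γ ≠ 0 := by
    rw [hp0, zero_mul, zero_sub, neg_ne_zero] at hm
    exact ⟨fun h => hm (by rw [h]; ring), fun h => hm (by rw [h]; ring)⟩
  refine ⟨a, b, c, d, α, γ, hdet, hαγ.1, hαγ.2, fun t ht => ?_, rfl, hp0, hq0, rfl⟩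
  -- the zero `(a - t b, c - t d)`
  have h1 : c3 * (a - t * b) ^ 3 + c2 * (a - t * b) ^ 2 * (c - t * d) + c1 * (a - t * b) * (c - t * d) ^ 2 +
      c0 * (c - t * d) ^ 3 = 0 := by
    have : c3 * (a - t * b) ^ 3 + c2 * (a - t * b) ^ 2 * (c - t * d) + c1 * (a - t * b) * (c - t * d) ^ 2 +
      c0 * (c - t * d) ^ 3 = α - t * p + t ^ 2 * q - t ^ 3 * γ := by
      rw [hα, hp, hq', hγ]
      ring
    rw [this, hp0, hq0, ht]
    ring
  obtain ⟨e1, e2⟩ := hz _ _ h1
  apply hdet
  linear_combination d * e1 - b * e2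

end Pool.Agent.Helper4.WS
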