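import Pool.Agent.Helper9.WS.Defs4

/-!
Block WS-21 (project WS for MP_1fe969_ag, owner helper9): the leading blocks of a plane polynomial with an arbitrary
Newton polygon are its Hasse-Witt blocks (multinomial theorem).
-/

set_option linter.unusedSectionVars false

open MvPolynomial Finset

namespace Pool.Agent.Helper9.WS

/-! ### matrices -/

private lemma mprod_smul_h4 {J J' R : Type} [Fintype J] [DecidableEq J] [Fintype J'] [DecidableEq J'] [CommRing R]
    (σ : J' ≃ J) (c : R) {A : ℕ → Matrix J J R} {A' : ℕ → Matrix J' J' R} (h : ∀ i, A' i = (c • A i).submatrix σ σ)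
    (s : ℕ) : mprod A' s = (c ^ s • mprod A s).submatrix σ σ := by
  induction s with
  | zero =>
    show (1 : Matrix J' J' R) = (c ^ 0 • (1 : Matrix J J R)).submatrix σ σ
    rw [pow_zero, one_smul, Matrix.submatrix_one_equiv]
  | succ s ih =>
    show A' s * mprod A' s = (c ^ (s + 1) • (A s * mprod A s)).submatrix σ σ
    rw [ih, h, Matrix.submatrix_mul_equiv, smul_mul_smul_comm, pow_succ, mul_comm c]

private lemma charpoly_smul_h4 {J R : Type} [Fintype J] [DecidableEq J] [Field R] {c : R} (hc : c ≠ 0)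
    (M : Matrix J J R) : (c • M).charpoly =
      Polynomial.C (c ^ Fintype.card J) * M.charpoly.comp (Polynomial.C c⁻¹ * Polynomial.X) := by
  have h1 : M.charpoly.comp (Polynomial.C c⁻¹ * Polynomial.X) =
      ((Polynomial.compRingHom (Polynomial.C c⁻¹ * Polynomial.X)).mapMatrix (Matrix.charmatrix M)).det := by
    rw [← RingHom.map_det]
    rfl
  rw [h1, Matrix.charpoly, map_pow Polynomial.C, ← Matrix.det_smul]
  congr 1
  ext i j : 1
  rw [Matrix.smul_apply, RingHom.mapMatrix_apply, Matrix.map_apply]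
  by_cases hij : i = j
  · subst hij
    rw [Matrix.charmatrix_apply_eq, Matrix.charmatrix_apply_eq, Polynomial.coe_compRingHom_apply,
      Polynomial.sub_comp, Polynomial.X_comp, Polynomial.C_comp, smul_eq_mul, mul_sub, ← mul_assoc,
      ← map_mul Polynomial.C, mul_inv_cancel₀ hc, Polynomial.C_1, one_mul, ← map_mul Polynomial.C,
      Matrix.smul_apply, smul_eq_mul]
  · rw [Matrix.charmatrix_apply_ne _ _ _ hij, Matrix.charmatrix_apply_ne _ _ _ hij,
      Polynomial.coe_compRingHom_apply, Polynomial.neg_comp, Polynomial.C_comp, smul_eq_mul, mul_neg,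
      ← map_mul Polynomial.C, Matrix.smul_apply, smul_eq_mul]

private lemma separable_smul_h4 {J R : Type} [Fintype J] [DecidableEq J] [Field R] {c : R} (hc : c ≠ 0)
    {M : Matrix J J R} (h : M.charpoly.Separable) : (c • M).charpoly.Separable := by
  rw [charpoly_smul_h4 hc]
  refine Polynomial.Separable.unit_mul (Polynomial.isUnit_C.2 (pow_ne_zero _ hc).isUnit) ?_
  obtain ⟨u, v, huv⟩ := h
  refine ⟨u.comp (Polynomial.C c⁻¹ * Polynomial.X), Polynomial.C c * v.comp (Polynomial.C c⁻¹ * Polynomial.X), ?_⟩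
  have h1 := congrArg (fun g => Polynomial.comp g (Polynomial.C c⁻¹ * Polynomial.X)) huv
  simp only [Polynomial.add_comp, Polynomial.mul_comp, Polynomial.one_comp] at h1
  rw [Polynomial.derivative_comp]
  have h2 : Polynomial.derivative (Polynomial.C c⁻¹ * Polynomial.X : Polynomial R) = Polynomial.C c⁻¹ := by
    rw [Polynomial.derivative_C_mul, Polynomial.derivative_X, mul_one]
  rw [h2, ← h1]
  have h3 : (Polynomial.C c : Polynomial R) * Polynomial.C c⁻¹ = 1 := by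
    rw [← map_mul Polynomial.C, mul_inv_cancel₀ hc, Polynomial.C_1]
  linear_combination (v.comp (Polynomial.C c⁻¹ * Polynomial.X) *
    (Polynomial.derivative M.charpoly).comp (Polynomial.C c⁻¹ * Polynomial.X)) * h3

private lemma charpoly_sub_h4 {J J' R : Type} [Fintype J] [DecidableEq J] [Fintype J'] [DecidableEq J'] [CommRing R]
    (σ : J' ≃ J) (M : Matrix J J R) : (M.submatrix σ σ).charpoly = M.charpoly := by
  have := Matrix.charpoly_reindex σ.symm M
  rwa [Matrix.reindex_apply, Equiv.symm_symm] at this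

/-! ### vectors -/

private noncomputable def vec_h4 (x y : ℕ) : Fin 2 →₀ ℕ := Finsupp.single 0 x + Finsupp.single 1 y

private lemma vec0_h4 (x y : ℕ) : vec_h4 x y 0 = x := by simp [vec_h4]

private lemma vec1_h4 (x y : ℕ) : vec_h4 x y 1 = y := by simp [vec_h4]

private lemma ext_h4 {U V : Fin 2 →₀ ℕ} (h0 : U 0 = V 0) (h1 : U 1 = V 1) : U = V := by
  ext j
  fin_cases j
  · exact h0
  · exact h1

/-! ### the weight -/

private lemma le_wt_h4 {S : Finset (ℕ × ℕ)} {σ : ℕ × ℕ} (h : σ ∈ S) (u : ℕ × ℕ) :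
    σ.1 * u.1 + σ.2 * u.2 ≤ polyWt S u :=
  Finset.le_sup (f := fun σ : ℕ × ℕ => σ.1 * u.1 + σ.2 * u.2) h

private lemma wt_mul_h4 (S : Finset (ℕ × ℕ)) (c x y : ℕ) : polyWt S (c * x, c * y) = c * polyWt S (x, y) := by
  apply le_antisymm
  · refine Finset.sup_le fun σ hσ => ?_
    have h1 := Nat.mul_le_mul_left c (le_wt_h4 hσ (x, y))
    refine le_trans (le_of_eq ?_) h1
    ring
  · by_cases hS : S = ∅
    · subst hS
      have h0 : polyWt ∅ (x, y) = 0 := rfl
      rw [h0, mul_zero]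
      exact Nat.zero_le _
    · obtain ⟨σ, hσ, hmax⟩ := Finset.exists_mem_eq_sup S (Finset.nonempty_iff_ne_empty.2 hS)
        (fun σ : ℕ × ℕ => σ.1 * x + σ.2 * y)
      have h0 : polyWt S (x, y) = σ.1 * x + σ.2 * y := hmax
      rw [h0]
      refine le_trans (le_of_eq ?_) (le_wt_h4 hσ (c * x, c * y))
      show c * (σ.1 * x + σ.2 * y) = σ.1 * (c * x) + σ.2 * (c * y)
      ring

/-- the weight -/
private noncomputable def om_h4 {p : ℕ} {k : Type} [Field k] {l : ℕ} {S : Finset (ℕ × ℕ)} {f : MvPolynomial (Fin 2) k}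
    (hl : 0 < l) (hs : ∀ e ∈ f.support, polyWt S (e 0, e 1) ≤ l) : Weight p f.support (fun _ => True) where
  l := l
  l_pos := hl
  w U := polyWt S (U 0, U 1)
  w_smul U := wt_mul_h4 S p (U 0) (U 1)
  w_exp e he U := by
    refine Finset.sup_le fun σ hσ => ?_
    have h1 := le_wt_h4 hσ (U 0, U 1)
    have h2 := Nat.mul_le_mul_left (p - 1) ((le_wt_h4 hσ (e 0, e 1)).trans (hs e he))
    simp only [Finsupp.add_apply, Finsupp.smul_apply, smul_eq_mul] at h1 h2 ⊢
    have h3 : σ.1 * (U 0 + (p - 1) * e 0) + σ.2 * (U 1 + (p - 1) * e 1) =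
        (σ.1 * U 0 + σ.2 * U 1) + (p - 1) * (σ.1 * e 0 + σ.2 * e 1) := by ring
    rw [h3]
    omega
  C_zero := trivial
  C_exp := fun _ _ _ _ => trivial
  C_smul := fun _ _ _ _ => trivial

/-- the low vectors -/
private noncomputable def low_h4 (p l : ℕ) (S : Finset (ℕ × ℕ)) : Finset (Fin 2 →₀ ℕ) :=
  ((Icc 1 l ×ˢ Icc 1 l).filter fun u => polyWt S u ≤ l).image
    fun u => vec_h4 ((p - 1) * u.1) ((p - 1) * u.2)

private lemma le_of_le_h4 {l : ℕ} {S : Finset (ℕ × ℕ)} (h0 : ∃ σ ∈ S, 0 < σ.1) (h1 : ∃ σ ∈ S, 0 < σ.2) {x y : ℕ}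
    (h : polyWt S (x, y) ≤ l) : x ≤ l ∧ y ≤ l := by
  constructor
  · obtain ⟨σ, hσ, hpos⟩ := h0
    have h2 := le_wt_h4 hσ (x, y)
    have h3 : 1 * x ≤ σ.1 * x := Nat.mul_le_mul_right x hpos
    simp only at h2
    omega
  · obtain ⟨σ, hσ, hpos⟩ := h1
    have h2 := le_wt_h4 hσ (x, y)
    have h3 : 1 * y ≤ σ.2 * y := Nat.mul_le_mul_right y hpos
    simp only at h2
    omega

private lemma wt_pos0_h4 {S : Finset (ℕ × ℕ)} (h0 : ∃ σ ∈ S, 0 < σ.1) {x y : ℕ} (h : 0 < x) : 0 < polyWt S (x, y) := by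
  obtain ⟨σ, hσ, hpos⟩ := h0
  have h2 := le_wt_h4 hσ (x, y)
  have h3 : 0 < σ.1 * x := Nat.mul_pos hpos h
  simp only at h2
  omega

private lemma wt_pos1_h4 {S : Finset (ℕ × ℕ)} (h1 : ∃ σ ∈ S, 0 < σ.2) {x y : ℕ} (h : 0 < y) : 0 < polyWt S (x, y) := by
  obtain ⟨σ, hσ, hpos⟩ := h1
  have h2 := le_wt_h4 hσ (x, y)
  have h3 : 0 < σ.2 * y := Nat.mul_pos hpos h
  simp only at h2
  omega

private lemma mem_low_h4 {p l : ℕ} {S : Finset (ℕ × ℕ)} (h0 : ∃ σ ∈ S, 0 < σ.1) (h1 : ∃ σ ∈ S, 0 < σ.2)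
    {U : Fin 2 →₀ ℕ} : U ∈ low_h4 p l S ↔
      ∃ x y, 0 < x ∧ 0 < y ∧ polyWt S (x, y) ≤ l ∧ U = vec_h4 ((p - 1) * x) ((p - 1) * y) := by
  unfold low_h4
  rw [mem_image]
  constructor
  · rintro ⟨⟨x, y⟩, hu, rfl⟩
    rw [mem_filter, mem_product, mem_Icc, mem_Icc] at hu
    exact ⟨x, y, hu.1.1.1, hu.1.2.1, hu.2, rfl⟩
  · rintro ⟨x, y, hx, hy, h, rfl⟩
    refine ⟨(x, y), ?_, rfl⟩
    have h2 := le_of_le_h4 h0 h1 h
    rw [mem_filter, mem_product, mem_Icc, mem_Icc]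
    exact ⟨⟨⟨hx, h2.1⟩, ⟨hy, h2.2⟩⟩, h⟩

private lemma w_vec_h4 (S : Finset (ℕ × ℕ)) (c x y : ℕ) :
    polyWt S (vec_h4 (c * x) (c * y) 0, vec_h4 (c * x) (c * y) 1) = c * polyWt S (x, y) := by
  rw [vec0_h4, vec1_h4, wt_mul_h4]

private lemma mem_low_iff_h4 {p l : ℕ} {S : Finset (ℕ × ℕ)} (hp : 0 < p - 1) (h0 : ∃ σ ∈ S, 0 < σ.1)
    (h1 : ∃ σ ∈ S, 0 < σ.2) {U : Fin 2 →₀ ℕ} :
    U ∈ low_h4 p l S ↔ (∀ j, U j ≠ 0 ∧ (p - 1) ∣ U j + 0) ∧ True ∧
      polyWt S (U 0, U 1) < (p - 1) * l + 1 := by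
  rw [mem_low_h4 h0 h1]
  constructor
  · rintro ⟨x, y, hx, hy, h, rfl⟩
    refine ⟨fun j => ?_, trivial, ?_⟩
    · fin_cases j
      · show vec_h4 ((p - 1) * x) ((p - 1) * y) 0 ≠ 0 ∧ (p - 1) ∣ vec_h4 ((p - 1) * x) ((p - 1) * y) 0 + 0
        rw [vec0_h4]
        exact ⟨(Nat.mul_pos hp hx).ne', dvd_mul_right _ _⟩
      · show vec_h4 ((p - 1) * x) ((p - 1) * y) 1 ≠ 0 ∧ (p - 1) ∣ vec_h4 ((p - 1) * x) ((p - 1) * y) 1 + 0
        rw [vec1_h4]
        exact ⟨(Nat.mul_pos hp hy).ne', dvd_mul_right _ _⟩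
    · rw [w_vec_h4]
      exact Nat.lt_succ_of_le (Nat.mul_le_mul_left _ h)
  · rintro ⟨h1, -, h2⟩
    obtain ⟨x, hx⟩ := (h1 0).2
    obtain ⟨y, hy⟩ := (h1 1).2
    rw [add_zero] at hx hy
    have hx0 : 0 < x := by
      rcases Nat.eq_zero_or_pos x with h | h
      · rw [h, mul_zero] at hx
        exact absurd hx (h1 0).1
      · exact h
    have hy0 : 0 < y := by
      rcases Nat.eq_zero_or_pos y with h | h
      · rw [h, mul_zero] at hy
        exact absurd hy (h1 1).1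
      · exact h
    refine ⟨x, y, hx0, hy0, ?_, ?_⟩
    · have h3 : (p - 1) * polyWt S (x, y) ≤ (p - 1) * l := by
        rw [hx, hy, wt_mul_h4] at h2
        omega
      exact Nat.le_of_mul_le_mul_left h3 hp
    · exact ext_h4 (by rw [vec0_h4]; exact hx) (by rw [vec1_h4]; exact hy)

/-! ### tight multiplicities -/

private lemma arith_h4 {p A t S j j' : ℕ} (hp : 0 < p - 1) (hA : 0 < A) (hj : 0 < j) (hjA : j ≤ A) (hj' : 0 < j')
    (hj'A : j' ≤ A) (ht : (p - 1) * j = A * t) (h : (p - 1) * j' + (p - 1) * A * S = p * ((p - 1) * j)) :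
    j = j' ∧ S = t ∧ S ≤ p - 1 := by
  have h1 : j' + A * S = A * t + j := by
    have h2 : (p - 1) * (j' + A * S) = (p - 1) * (A * t + j) := by
      have h3 : p * ((p - 1) * j) = (p - 1) * ((p - 1) * j + j) := by
        obtain ⟨q, rfl⟩ : ∃ q, p = q + 1 := ⟨p - 1, by omega⟩
        simp only [Nat.add_sub_cancel]
        ring
      rw [← ht, ← h3, ← h]
      ring
    exact Nat.eq_of_mul_eq_mul_left hp h2
  have hS : S = t := by
    rcases lt_trichotomy S t with h2 | h2 | h2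
    · exfalso
      have h3 : A * (S + 1) ≤ A * t := Nat.mul_le_mul_left A h2
      rw [mul_add, mul_one] at h3
      omega
    · exact h2
    · exfalso
      have h3 : A * (t + 1) ≤ A * S := Nat.mul_le_mul_left A h2
      rw [mul_add, mul_one] at h3
      omega
  refine ⟨by rw [hS] at h1; omega, hS, ?_⟩
  rw [hS]
  have h2 : A * t ≤ A * (p - 1) := by
    rw [← ht, mul_comm A]
    exact Nat.mul_le_mul_left _ hjA
  exact Nat.le_of_mul_le_mul_left h2 hA

section main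

variable {p : ℕ} [Fact p.Prime] {k : Type} [Field k] {l : ℕ} {S : Finset (ℕ × ℕ)} {f : MvPolynomial (Fin 2) k}

private lemma pos_h4 (p : ℕ) [Fact p.Prime] : 0 < p - 1 := by
  have := (Fact.out : p.Prime).two_le
  omega

private lemma tight_w_h4 (hl : 0 < l) (hs : ∀ e ∈ f.support, polyWt S (e 0, e 1) ≤ l) (hd : l ∣ p - 1)
    (h0 : ∃ σ ∈ S, 0 < σ.1) {x y x' y' : ℕ} (hx : 0 < x) (h : polyWt S (x, y) ≤ l)
    (hx' : 0 < x') (h' : polyWt S (x', y') ≤ l) {m : (Fin 2 →₀ ℕ) → ℕ}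
    (hm : IsTight (om_h4 (p := p) hl hs) (vec_h4 ((p - 1) * x) ((p - 1) * y)) (vec_h4 ((p - 1) * x') ((p - 1) * y')) m) :
    polyWt S (x, y) = polyWt S (x', y') ∧ ∑ e ∈ f.support, m e = (p - 1) * polyWt S (x, y) / l ∧
      ∑ e ∈ f.support, m e ≤ p - 1 := by
  obtain ⟨t, ht⟩ := hd.mul_right (polyWt S (x, y))
  have h1 : (p - 1) * polyWt S (x', y') + (p - 1) * l * ∑ e ∈ f.support, m e =
      p * ((p - 1) * polyWt S (x, y)) := by
    have := hm.2
    rw [← w_vec_h4, ← w_vec_h4]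
    exact this
  have h2 := arith_h4 (pos_h4 p) hl (wt_pos0_h4 h0 hx) h (wt_pos0_h4 h0 hx') h' ht h1
  refine ⟨h2.1, ?_, h2.2.2⟩
  rw [h2.2.1, ht, Nat.mul_div_cancel_left _ hl]

private lemma tight_iff_h4 (hl : 0 < l) (hs : ∀ e ∈ f.support, polyWt S (e 0, e 1) ≤ l) (hd : l ∣ p - 1)
    (h0 : ∃ σ ∈ S, 0 < σ.1) (h1 : ∃ σ ∈ S, 0 < σ.2) {x y x' y' : ℕ} (hx : 0 < x) (hy : 0 < y)
    (h : polyWt S (x, y) ≤ l) (hx' : 0 < x') (hxy : polyWt S (x, y) = polyWt S (x', y')) {m : (Fin 2 →₀ ℕ) → ℕ} :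
    IsTight (om_h4 (p := p) hl hs) (vec_h4 ((p - 1) * x) ((p - 1) * y)) (vec_h4 ((p - 1) * x') ((p - 1) * y')) m ↔
      ∑ e ∈ f.support, m e = (p - 1) * polyWt S (x, y) / l ∧
        ∑ e ∈ f.support, m e • e = vec_h4 (p * x - x') (p * y - y') := by
  have hp := pos_h4 p
  have hle : x' ≤ p * x ∧ y' ≤ p * y := by
    have h2 := le_of_le_h4 h0 h1 (hxy ▸ h)
    have h3 := Nat.le_of_dvd hp hd
    have h4 : p * 1 ≤ p * x := Nat.mul_le_mul_left p hx
    have h5 : p * 1 ≤ p * y := Nat.mul_le_mul_left p hy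
    omega
  have key : ∀ (A : Fin 2 →₀ ℕ), (p - 1) • A + vec_h4 ((p - 1) * x') ((p - 1) * y') =
      p • vec_h4 ((p - 1) * x) ((p - 1) * y) ↔ A = vec_h4 (p * x - x') (p * y - y') := by
    intro A
    have c : ∀ s z z' : ℕ, z' ≤ p * z → ((p - 1) * s + (p - 1) * z' = p * ((p - 1) * z) ↔ s = p * z - z') := by
      intro s z z' hz
      constructor
      · intro h1
        have h2 : (p - 1) * (s + z') = (p - 1) * (p * z) := by
          rw [mul_add, h1]
          ring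
        have h3 := Nat.eq_of_mul_eq_mul_left hp h2
        omega
      · rintro rfl
        rw [← mul_add, Nat.sub_add_cancel hz]
        ring
    constructor
    · intro h1
      have e0 := DFunLike.congr_fun h1 0
      have e1 := DFunLike.congr_fun h1 1
      simp only [Finsupp.add_apply, Finsupp.smul_apply, smul_eq_mul, vec0_h4, vec1_h4] at e0 e1
      exact ext_h4 (by rw [vec0_h4]; exact (c _ _ _ hle.1).1 e0) (by rw [vec1_h4]; exact (c _ _ _ hle.2).1 e1)
    · rintro rfl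
      refine ext_h4 ?_ ?_
      · simp only [Finsupp.add_apply, Finsupp.smul_apply, smul_eq_mul, vec0_h4]
        exact (c _ _ _ hle.1).2 rfl
      · simp only [Finsupp.add_apply, Finsupp.smul_apply, smul_eq_mul, vec1_h4]
        exact (c _ _ _ hle.2).2 rfl
  constructor
  · intro hm
    exact ⟨(tight_w_h4 hl hs hd h0 hx h hx' (hxy ▸ h) hm).2.1, (key _).1 hm.1⟩
  · rintro ⟨h1, h2⟩
    refine ⟨(key _).2 h2, ?_⟩
    have h3 : (p - 1) * polyWt S (x', y') + (p - 1) * l * ∑ e ∈ f.support, m e =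
        p * ((p - 1) * polyWt S (x, y)) := by
      obtain ⟨t, ht⟩ := hd.mul_right (polyWt S (x, y))
      rw [h1, ← hxy, ht, Nat.mul_div_cancel_left _ hl, mul_assoc (p - 1) l t, ← ht]
      obtain ⟨q, hq⟩ : ∃ q, p = q + 1 := ⟨p - 1, by omega⟩
      rw [hq]
      simp only [Nat.add_sub_cancel]
      ring
    rw [← w_vec_h4, ← w_vec_h4] at h3
    exact h3

/-! ### the multinomial theorem -/

private lemma prod_monomial_h4 (s : Finset (Fin 2 →₀ ℕ)) (c : (Fin 2 →₀ ℕ) → k) (m : (Fin 2 →₀ ℕ) → ℕ) :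
    ∏ e ∈ s, (monomial e (c e) : MvPolynomial (Fin 2) k) ^ m e = monomial (∑ e ∈ s, m e • e) (∏ e ∈ s, c e ^ m e) := by
  classical
  induction s using Finset.induction_on with
  | empty => rfl
  | insert e s he ih =>
    rw [prod_insert he, sum_insert he, prod_insert he, ih, monomial_pow, monomial_mul]

private lemma coeff_pow_h4 (f : MvPolynomial (Fin 2) k) (N : ℕ) (K : Fin 2 →₀ ℕ) :
    (f ^ N).coeff K = ∑ m ∈ (piAntidiag f.support N).filter (fun m => ∑ e ∈ f.support, m e • e = K),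
      ((Nat.multinomial f.support m : ℕ) : k) * ∏ e ∈ f.support, f.coeff e ^ m e := by
  classical
  conv_lhs => rw [as_sum f]
  rw [sum_pow_eq_sum_piAntidiag, coeff_sum, sum_filter]
  refine sum_congr rfl fun m _ => ?_
  have h1 : ((Nat.multinomial f.support m : ℕ) : MvPolynomial (Fin 2) k) = C ((Nat.multinomial f.support m : ℕ) : k) := by
    rw [map_natCast]
  rw [prod_monomial_h4, h1, coeff_C_mul, coeff_monomial, mul_ite, mul_zero]

private lemma fact_ne_h4 [CharP k p] {N : ℕ} (hN : N ≤ p - 1) : ((N.factorial : ℕ) : k) ≠ 0 := by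
  intro h
  rw [CharP.cast_eq_zero_iff k p, (Fact.out : p.Prime).dvd_factorial] at h
  have := pos_h4 p
  omega

private lemma natCast_pow_h4 [CharP k p] (n i : ℕ) : ((n : k)) ^ p ^ i = n := by
  have := map_natCast (iterateFrobenius k p i) n
  rwa [iterateFrobenius_def] at this

/-- the leading coefficient and the coefficient of the power -/
private lemma lead_h4 [CharP k p] (hl : 0 < l) (hs : ∀ e ∈ f.support, polyWt S (e 0, e 1) ≤ l) (hd : l ∣ p - 1)
    (h0 : ∃ σ ∈ S, 0 < σ.1) (h1 : ∃ σ ∈ S, 0 < σ.2) {x y x' y' : ℕ} (hx : 0 < x) (hy : 0 < y)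
    (h : polyWt S (x, y) ≤ l) (hx' : 0 < x') (hxy : polyWt S (x, y) = polyWt S (x', y')) (i : ℕ) :
    ((((p - 1) * polyWt S (x, y) / l).factorial : ℕ) : k) *
      lead f (om_h4 (p := p) hl hs) i (vec_h4 ((p - 1) * x) ((p - 1) * y)) (vec_h4 ((p - 1) * x') ((p - 1) * y')) =
      ((f ^ ((p - 1) * polyWt S (x, y) / l)).coeff (vec_h4 (p * x - x') (p * y - y'))) ^ p ^ i := by
  classical
  set N := (p - 1) * polyWt S (x, y) / l with hN
  have hNp : N ≤ p - 1 := by
    rw [hN]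
    exact Nat.div_le_of_le_mul (by rw [mul_comm l]; exact Nat.mul_le_mul_left _ h)
  have hiff := fun m => tight_iff_h4 (f := f) hl hs hd h0 h1 hx hy h hx' hxy (m := m)
  rw [← hN] at hiff
  rw [coeff_pow_h4, sum_pow_char_pow]
  unfold lead
  rw [← sum_filter, mul_sum]
  refine sum_nbij (fun m : f.support → Fin p => fun e => if h : e ∈ f.support then (m ⟨e, h⟩ : ℕ) else 0) ?_ ?_ ?_ ?_
  · intro m hm
    rw [mem_filter] at hm
    have h1 := (hiff _).1 hm.2
    rw [mem_filter, mem_piAntidiag]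
    refine ⟨⟨h1.1, fun e he => ?_⟩, h1.2⟩
    by_contra hc
    exact he (dif_neg hc)
  · intro m _ m' _ hmm
    funext e
    have := congrFun hmm (e : Fin 2 →₀ ℕ)
    simp only [e.2, dif_pos] at this
    exact Fin.ext this
  · intro m hm
    rw [mem_coe, mem_filter, mem_piAntidiag] at hm
    have hlt : ∀ e ∈ f.support, m e < p := by
      intro e he
      have h1 : m e ≤ ∑ e ∈ f.support, m e := single_le_sum (fun _ _ => Nat.zero_le _) he
      rw [hm.1.1] at h1
      have := pos_h4 p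
      omega
    have hφ : (fun e : Fin 2 →₀ ℕ => if h : e ∈ f.support then
        (((fun e : f.support => (⟨m e, hlt e e.2⟩ : Fin p)) ⟨e, h⟩ : Fin p) : ℕ) else 0) = m := by
      funext e
      by_cases he : e ∈ f.support
      · rw [dif_pos he]
      · rw [dif_neg he]
        by_contra hc
        exact he (hm.1.2 e (Ne.symm hc))
    refine ⟨fun e => ⟨m e, hlt e e.2⟩, ?_, hφ⟩
    rw [mem_coe, mem_filter]
    refine ⟨mem_univ _, ?_⟩
    have h1 := (hiff m).2 ⟨hm.1.1, hm.2⟩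
    rw [← hφ] at h1
    exact h1
  · intro m hm
    rw [mem_filter] at hm
    have h1 := (hiff _).1 hm.2
    set φ : (Fin 2 →₀ ℕ) → ℕ := fun e => if h : e ∈ f.support then (m ⟨e, h⟩ : ℕ) else 0 with hφ
    have h2 : (∏ e : f.support, f.coeff (e : Fin 2 →₀ ℕ) ^ (p ^ i * (m e : ℕ)) * (((m e : ℕ).factorial : ℕ) : k)⁻¹) =
        ∏ e ∈ f.support, f.coeff e ^ (p ^ i * φ e) * (((φ e).factorial : ℕ) : k)⁻¹ := by
      rw [← prod_coe_sort f.support (fun e => f.coeff e ^ (p ^ i * φ e) * (((φ e).factorial : ℕ) : k)⁻¹)]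
      refine prod_congr rfl fun e _ => ?_
      have h3 : φ (e : Fin 2 →₀ ℕ) = (m e : ℕ) := by
        rw [hφ]
        simp only [e.2, dif_pos]
      rw [h3]
    rw [h2, mul_pow, natCast_pow_h4, ← prod_pow, prod_mul_distrib]
    have hle : ∀ e ∈ f.support, φ e ≤ p - 1 := by
      intro e he
      have h3 : φ e ≤ ∑ e ∈ f.support, φ e := single_le_sum (fun _ _ => Nat.zero_le _) he
      rw [h1.1] at h3
      exact h3.trans hNp
    have h4 : ((N.factorial : ℕ) : k) * ∏ e ∈ f.support, (((φ e).factorial : ℕ) : k)⁻¹ =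
        ((Nat.multinomial f.support φ : ℕ) : k) := by
      have h5 := Nat.multinomial_spec f.support φ
      rw [h1.1] at h5
      rw [← h5, Nat.cast_mul, Nat.cast_prod, mul_right_comm, ← prod_mul_distrib,
        prod_congr rfl fun e he => mul_inv_cancel₀ (fact_ne_h4 (p := p) (k := k) (hle e he)), prod_const_one, one_mul]
    rw [← h4]
    have h6 : ∏ e ∈ f.support, (f.coeff e ^ φ e) ^ p ^ i = ∏ e ∈ f.support, f.coeff e ^ (p ^ i * φ e) :=
      prod_congr rfl fun e _ => by rw [← pow_mul, mul_comm]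
    rw [h6]
    ring

/-- the indices of the block of weight `(p - 1) j` -/
private lemma block_h4 (hl : 0 < l) (hs : ∀ e ∈ f.support, polyWt S (e 0, e 1) ≤ l)
    (h0 : ∃ σ ∈ S, 0 < σ.1) (h1 : ∃ σ ∈ S, 0 < σ.2) {j : ℕ} (hj : j ≤ l) :
    ∃ σ : ((low_h4 p l S).filter fun U => (om_h4 (p := p) hl hs).w U = (p - 1) * j) ≃ polyIdx S l j,
      ∀ U : ((low_h4 p l S).filter fun U => (om_h4 (p := p) hl hs).w U = (p - 1) * j),
        (U : Fin 2 →₀ ℕ) = vec_h4 ((p - 1) * (σ U).1.1) ((p - 1) * (σ U).1.2) := by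
  have hp := pos_h4 p
  have hmem : ∀ u : polyIdx S l j, vec_h4 ((p - 1) * u.1.1) ((p - 1) * u.1.2) ∈
      (low_h4 p l S).filter fun U => (om_h4 (p := p) hl hs).w U = (p - 1) * j := by
    intro u
    have hu := u.2
    unfold polyIdx at hu
    rw [mem_filter, mem_product, mem_Icc, mem_Icc] at hu
    rw [mem_filter, mem_low_h4 h0 h1]
    have hu2 : polyWt S (u.1.1, u.1.2) = j := hu.2
    refine ⟨⟨_, _, hu.1.1.1, hu.1.2.1, by rw [hu2]; exact hj, rfl⟩, ?_⟩
    have h1 := w_vec_h4 S (p - 1) u.1.1 u.1.2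
    rw [hu2] at h1
    exact h1
  let τ : polyIdx S l j → ((low_h4 p l S).filter fun U => (om_h4 (p := p) hl hs).w U = (p - 1) * j) :=
    fun u => ⟨_, hmem u⟩
  have hτ : Function.Bijective τ := by
    constructor
    · intro u v huv
      have h1 : vec_h4 ((p - 1) * u.1.1) ((p - 1) * u.1.2) = vec_h4 ((p - 1) * v.1.1) ((p - 1) * v.1.2) :=
        congrArg Subtype.val huv
      have e0 := DFunLike.congr_fun h1 0
      have e1 := DFunLike.congr_fun h1 1
      rw [vec0_h4, vec0_h4] at e0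
      rw [vec1_h4, vec1_h4] at e1
      exact Subtype.ext (Prod.ext (Nat.eq_of_mul_eq_mul_left hp e0) (Nat.eq_of_mul_eq_mul_left hp e1))
    · rintro ⟨U, hU⟩
      have hU' := hU
      rw [mem_filter, mem_low_h4 h0 h1] at hU'
      obtain ⟨⟨x, y, hx, hy, h, rfl⟩, hw⟩ := hU'
      have h3 : polyWt S (x, y) = j := by
        have h2 := w_vec_h4 S (p - 1) x y
        have h3 : (p - 1) * polyWt S (x, y) = (p - 1) * j := by
          rw [← h2]
          exact hw
        exact Nat.eq_of_mul_eq_mul_left hp h3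
      have h2 := le_of_le_h4 h0 h1 h
      exact ⟨⟨(x, y), by
        unfold polyIdx
        rw [mem_filter, mem_product, mem_Icc, mem_Icc]
        exact ⟨⟨⟨hx, h2.1⟩, ⟨hy, h2.2⟩⟩, h3⟩⟩, rfl⟩
  refine ⟨(Equiv.ofBijective τ hτ).symm, fun U => ?_⟩
  have h1 := (Equiv.ofBijective τ hτ).apply_symm_apply U
  exact (congrArg Subtype.val h1).symm

private lemma mem_polyIdx_h4 {j : ℕ} {u : ℕ × ℕ} (hu : u ∈ polyIdx S l j) :
    0 < u.1 ∧ 0 < u.2 ∧ polyWt S (u.1, u.2) = j := by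
  unfold polyIdx at hu
  rw [mem_filter, mem_product, mem_Icc, mem_Icc] at hu
  exact ⟨hu.1.1.1, hu.1.2.1, hu.2⟩

private lemma mat_h4 [CharP k p] (hl : 0 < l) (hs : ∀ e ∈ f.support, polyWt S (e 0, e 1) ≤ l) (hd : l ∣ p - 1)
    (h0 : ∃ σ ∈ S, 0 < σ.1) (h1 : ∃ σ ∈ S, 0 < σ.2) {j : ℕ} (hj : j ≤ l) :
    ∃ (c : k) (σ : ((low_h4 p l S).filter fun U => (om_h4 (p := p) hl hs).w U = (p - 1) * j) ≃ polyIdx S l j),
      c ≠ 0 ∧ ∀ i, leadMat f (om_h4 (p := p) hl hs) (low_h4 p l S) ((p - 1) * j) i =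
        (c • polyHasse p l S f j i).submatrix σ σ := by
  obtain ⟨σ, hσ⟩ := block_h4 (p := p) (f := f) hl hs h0 h1 hj
  have hNp : (p - 1) * j / l ≤ p - 1 :=
    Nat.div_le_of_le_mul (by rw [mul_comm l]; exact Nat.mul_le_mul_left _ hj)
  have hne := fact_ne_h4 (p := p) (k := k) hNp
  refine ⟨((((p - 1) * j / l).factorial : ℕ) : k)⁻¹, σ, inv_ne_zero hne, fun i => ?_⟩
  ext U V
  rw [Matrix.submatrix_apply, Matrix.smul_apply, smul_eq_mul, eq_inv_mul_iff_mul_eq₀ hne]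
  have hu := mem_polyIdx_h4 (σ U).2
  have hv := mem_polyIdx_h4 (σ V).2
  have h3 := lead_h4 (p := p) (f := f) hl hs hd h0 h1 hu.1 hu.2.1 (hu.2.2.le.trans hj) hv.1
    (hu.2.2.trans hv.2.2.symm) (y' := (σ V).1.2) i
  have h2 : leadMat f (om_h4 (p := p) hl hs) (low_h4 p l S) ((p - 1) * j) i U V =
      lead f (om_h4 (p := p) hl hs) i (vec_h4 ((p - 1) * (σ U).1.1) ((p - 1) * (σ U).1.2))
        (vec_h4 ((p - 1) * (σ V).1.1) ((p - 1) * (σ V).1.2)) :=
    congrArg₂ (lead f (om_h4 (p := p) hl hs) i) (hσ U) (hσ V)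
  rw [hu.2.2] at h3
  rw [h2]
  exact h3

end main

theorem poly_blocks {p : ℕ} [Fact p.Prime] {k : Type} [Field k] [CharP k p] {s l : ℕ}
    {S : Finset (ℕ × ℕ)} {f : MvPolynomial (Fin 2) k} (hf : PolyBlocks p s l S f) :
    ∃ (ω : Weight p f.support (fun _ => True)) (low : Finset (Fin 2 →₀ ℕ)), ω.l = l ∧
      Blocks f ω (fun _ => 0) s ((p - 1) * ω.l + 1) low := by
  have hp := pos_h4 p
  have hl := hf.l_pos
  have hempty : ∀ j, (¬ ∃ j' ≤ l, j = (p - 1) * j') →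
      IsEmpty ((low_h4 p l S).filter fun U => (om_h4 (p := p) hl hf.supp).w U = j) := by
    intro j hj
    refine ⟨fun U => ?_⟩
    have hU := U.2
    rw [mem_filter, mem_low_h4 hf.pos0 hf.pos1] at hU
    obtain ⟨⟨x, y, hx, hy, h, hUe⟩, hw⟩ := hU
    apply hj
    refine ⟨polyWt S (x, y), h, ?_⟩
    rw [← hw, hUe]
    exact w_vec_h4 S (p - 1) x y
  refine ⟨om_h4 hl hf.supp, low_h4 p l S, rfl, ?_, ?_, ?_, ?_, ?_⟩
  · exact fun U => mem_low_iff_h4 hp hf.pos0 hf.pos1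
  · intro U hU V hV m hm
    rw [mem_low_h4 hf.pos0 hf.pos1] at hU hV
    obtain ⟨x, y, hx, hy, h, rfl⟩ := hU
    obtain ⟨x', y', hx', hy', h', rfl⟩ := hV
    have h1 := tight_w_h4 hl hf.supp hf.dvd hf.pos0 hx h hx' h' hm
    constructor
    · show polyWt S (vec_h4 _ _ 0, vec_h4 _ _ 1) = polyWt S (vec_h4 _ _ 0, vec_h4 _ _ 1)
      rw [w_vec_h4, w_vec_h4, h1.1]
    · intro e he
      have h2 : m e ≤ ∑ e ∈ f.support, m e := single_le_sum (fun _ _ => Nat.zero_le _) he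
      have h3 := h1.2.2
      omega
  · intro U Z hUZ _
    show (p - 1) * l + 1 ≤ polyWt S (U 0, U 1) + max 1 Z.card * ((p - 1) * l)
    have hpos : 0 < (p - 1) * l := Nat.mul_pos hp hl
    by_cases h0 : U 0 = 0
    · by_cases h1 : U 1 = 0
      · have hZ : Z = univ := by
          rw [eq_univ_iff_forall]
          intro j
          fin_cases j
          · exact (hUZ 0).1.2 h0
          · exact (hUZ 1).1.2 h1
        rw [hZ, card_univ, Fintype.card_fin]
        have : max 1 2 = 2 := rfl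
        rw [this]
        omega
      · have h2 : 0 < polyWt S (U 0, U 1) := wt_pos1_h4 hf.pos1 (Nat.pos_of_ne_zero h1)
        have h3 : 1 * ((p - 1) * l) ≤ max 1 Z.card * ((p - 1) * l) :=
          Nat.mul_le_mul_right _ (le_max_left _ _)
        omega
    · have h2 : 0 < polyWt S (U 0, U 1) := wt_pos0_h4 hf.pos0 (Nat.pos_of_ne_zero h0)
      have h3 : 1 * ((p - 1) * l) ≤ max 1 Z.card * ((p - 1) * l) :=
        Nat.mul_le_mul_right _ (le_max_left _ _)
      omega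
  · intro j
    by_cases hj : ∃ j' ≤ l, j = (p - 1) * j'
    · obtain ⟨j', hj', rfl⟩ := hj
      obtain ⟨c, σ, hc, hmat⟩ := mat_h4 (p := p) (f := f) hl hf.supp hf.dvd hf.pos0 hf.pos1 hj'
      rw [mprod_smul_h4 σ c hmat, Matrix.det_submatrix_equiv_self, Matrix.det_smul]
      exact mul_ne_zero (pow_ne_zero _ (pow_ne_zero _ hc)) (hf.det j' hj')
    · have := hempty j hj
      rw [Matrix.det_isEmpty]
      exact one_ne_zero
  · intro j
    by_cases hj : ∃ j' ≤ l, j = (p - 1) * j'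
    · obtain ⟨j', hj', rfl⟩ := hj
      obtain ⟨c, σ, hc, hmat⟩ := mat_h4 (p := p) (f := f) hl hf.supp hf.dvd hf.pos0 hf.pos1 hj'
      rw [mprod_smul_h4 σ c hmat, charpoly_sub_h4 σ]
      exact separable_smul_h4 (pow_ne_zero _ hc) (hf.sep j' hj')
    · have := hempty j hj
      rw [Matrix.charpoly, Matrix.det_isEmpty]
      exact Polynomial.separable_one

end Pool.Agent.Helper9.WS
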